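import Mathlib

/-!
Covering numbers of finite sets by members of a finite family, and a decomposition lemma
in the spirit of the Gallai-Edmonds theorem.
-/

set_option autoImplicit false

namespace Pool.Agent.Helper62_CoverFree

open Finset

variable {α : Type*} [DecidableEq α]

/-- `X` is covered by at most `m` members of `E`. -/
def Cov (E : Finset (Finset α)) (X : Finset α) (m : ℕ) : Prop :=
  ∃ S ⊆ E, S.card ≤ m ∧ X ⊆ S.sup id

/-- The covering number of `X` by members of `E`. -/
noncomputable def tau (E : Finset (Finset α)) (X : Finset α) : ℕ := sInf {m | Cov E X m}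

section basic

variable {E : Finset (Finset α)} {X Y : Finset α} {m m' : ℕ}

lemma cov_card (h : X ⊆ E.sup id) : Cov E X E.card := ⟨E, Subset.rfl, le_rfl, h⟩

lemma cov_tau (h : X ⊆ E.sup id) : Cov E X (tau E X) :=
  Nat.sInf_mem (s := {m | Cov E X m}) ⟨_, cov_card h⟩

lemma tau_le (h : Cov E X m) : tau E X ≤ m := Nat.sInf_le h

lemma Cov.mono (h : Cov E X m) (hm : m ≤ m') : Cov E X m' := by
  obtain ⟨S, hS, hc, hX⟩ := h
  exact ⟨S, hS, hc.trans hm, hX⟩

lemma Cov.subset (h : Cov E X m) (hY : Y ⊆ X) : Cov E Y m := by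
  obtain ⟨S, hS, hc, hX⟩ := h
  exact ⟨S, hS, hc, hY.trans hX⟩

lemma Cov.union (h : Cov E X m) (h' : Cov E Y m') : Cov E (X ∪ Y) (m + m') := by
  obtain ⟨S, hS, hc, hX⟩ := h
  obtain ⟨S', hS', hc', hX'⟩ := h'
  refine ⟨S ∪ S', union_subset hS hS', (card_union_le _ _).trans (by omega), ?_⟩
  rw [sup_union]
  exact union_subset_union hX hX'

lemma cov_empty : Cov E ∅ 0 := ⟨∅, by simp, by simp, by simp⟩

lemma cov_mem {B : Finset α} (hB : B ∈ E) : Cov E B 1 := ⟨{B}, by simpa using hB, by simp, by simp⟩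

lemma tau_mono (h : Y ⊆ E.sup id) (hXY : X ⊆ Y) : tau E X ≤ tau E Y :=
  tau_le ((cov_tau h).subset hXY)

lemma tau_union_le (hX : X ⊆ E.sup id) (hY : Y ⊆ E.sup id) :
    tau E (X ∪ Y) ≤ tau E X + tau E Y :=
  tau_le ((cov_tau hX).union (cov_tau hY))

lemma tau_le_sdiff (hX : X ⊆ E.sup id) {B : Finset α} (hB : B ∈ E) :
    tau E X ≤ tau E (X \ B) + 1 := by
  have h1 : Cov E (X \ B) (tau E (X \ B)) := cov_tau (sdiff_subset.trans hX)
  have h2 := (h1.union (cov_mem hB)).subset (Y := X) (by
    intro x hx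
    simp only [mem_union, mem_sdiff]
    tauto)
  exact tau_le h2

lemma tau_empty : tau E (∅ : Finset α) = 0 := Nat.le_zero.mp (tau_le cov_empty)

lemma Cov.biUnion {ι : Type*} [DecidableEq ι] (s : Finset ι) (f : ι → Finset α) (g : ι → ℕ)
    (h : ∀ i ∈ s, Cov E (f i) (g i)) : Cov E (s.biUnion f) (∑ i ∈ s, g i) := by
  induction s using Finset.induction_on with
  | empty => simpa using cov_empty
  | insert a s ha ih =>
    rw [biUnion_insert, sum_insert ha]
    exact (h a (mem_insert_self _ _)).union (ih fun i hi => h i (mem_insert_of_mem hi))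

lemma cov_singleton {x : α} (hx : x ∈ E.sup id) : Cov E {x} 1 := by
  rw [mem_sup] at hx
  obtain ⟨B, hB, hxB⟩ := hx
  exact (cov_mem hB).subset (by simpa using hxB)

end basic

/-- `K` is a partition of `V \ S` into sets such that no member of `E` meets two of them. -/
structure IsConf (E : Finset (Finset α)) (V S : Finset α) (K : Finset (Finset α)) : Prop where
  sub : S ⊆ V
  disj : ∀ P ∈ K, ∀ Q ∈ K, P ≠ Q → Disjoint P Q
  union : K.biUnion id = V \ S
  sep : ∀ B ∈ E, ∀ P ∈ K, ∀ Q ∈ K, (B ∩ P).Nonempty → (B ∩ Q).Nonempty → P = Q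

/-- Number of odd parts. -/
def oddCount (K : Finset (Finset α)) : ℕ := (K.filter fun P => Odd P.card).card

variable {E : Finset (Finset α)} {V S : Finset α} {K : Finset (Finset α)}

lemma IsConf.part_sub (h : IsConf E V S K) {P : Finset α} (hP : P ∈ K) : P ⊆ V \ S := by
  rw [← h.union]
  exact subset_biUnion_of_mem id hP

lemma IsConf.card (h : IsConf E V S K) : V.card = S.card + ∑ P ∈ K, P.card := by
  have h1 : (K.biUnion id).card = ∑ P ∈ K, P.card := by
    rw [card_biUnion]
    · rfl
    · intro P hP Q hQ hne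
      exact h.disj P hP Q hQ hne
  rw [h.union, card_sdiff_of_subset h.sub] at h1
  have := card_le_card h.sub
  omega

lemma IsConf.parity (h : IsConf E V S K) : (V.card + S.card + oddCount K) % 2 = 0 := by
  have h1 := h.card
  have h2 : Odd (∑ P ∈ K, P.card) ↔ Odd (oddCount K) := by
    simpa [oddCount] using Finset.odd_sum_iff_odd_card_odd (s := K) (fun P => P.card)
  rw [Nat.odd_iff, Nat.odd_iff] at h2
  omega

lemma isConf_single (Y : Finset α) : IsConf E Y ∅ {Y} := by
  refine ⟨by simp, ?_, by simp, ?_⟩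
  · intro P hP Q hQ hne
    simp only [mem_singleton] at hP hQ
    exact absurd (hP.trans hQ.symm) hne
  · intro B _ P hP Q hQ _ _
    simp only [mem_singleton] at hP hQ
    exact hP.trans hQ.symm

lemma IsConf.compose (h : IsConf E V S K) {P : Finset α} (hP : P ∈ K) {v : α} (hv : v ∈ P)
    {T : Finset α} {L : Finset (Finset α)} (hL : IsConf E (P.erase v) T L) :
    IsConf E V (S ∪ insert v T) ((K.erase P) ∪ L) ∧
      (S ∪ insert v T).card = S.card + 1 + T.card ∧
      oddCount ((K.erase P) ∪ L) = oddCount (K.erase P) + oddCount L := by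
  have hPV := h.part_sub hP
  have hTP : T ⊆ P.erase v := hL.sub
  have hLsub : ∀ Q ∈ L, Q ⊆ P.erase v := fun Q hQ => (hL.part_sub hQ).trans sdiff_subset
  have hLP : ∀ Q ∈ L, Q ⊆ P := fun Q hQ => (hLsub Q hQ).trans (erase_subset _ _)
  have hvT : v ∉ T := fun hvT => by simpa using hTP hvT
  refine ⟨⟨?_, ?_, ?_, ?_⟩, ?_, ?_⟩
  · intro x hx
    simp only [mem_union, mem_insert] at hx
    rcases hx with hx | rfl | hx
    · exact h.sub hx
    · exact (mem_sdiff.mp (hPV hv)).1
    · exact (mem_sdiff.mp (hPV (mem_of_mem_erase (hTP hx)))).1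
  · intro Q hQ R hR hne
    simp only [mem_union, mem_erase] at hQ hR
    rcases hQ with ⟨hQP, hQ⟩ | hQ <;> rcases hR with ⟨hRP, hR⟩ | hR
    · exact h.disj Q hQ R hR hne
    · exact (h.disj Q hQ P hP hQP).mono_right (hLP R hR)
    · exact ((h.disj R hR P hP hRP).mono_right (hLP Q hQ)).symm
    · exact hL.disj Q hQ R hR hne
  · have hu := h.union
    have hLu := hL.union
    have hK : K.biUnion id = (K.erase P).biUnion id ∪ P := by
      conv_lhs => rw [← insert_erase hP]
      rw [biUnion_insert, union_comm]; rfl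
    have hdisj : Disjoint ((K.erase P).biUnion id) P := by
      rw [disjoint_biUnion_left]
      intro Q hQ
      exact h.disj Q (mem_of_mem_erase hQ) P hP (ne_of_mem_erase hQ)
    rw [union_biUnion, hLu]
    ext x
    have hx1 : x ∈ (K.erase P).biUnion id ∨ x ∈ P ↔ x ∈ V ∧ x ∉ S := by
      rw [← mem_union, ← hK, hu, mem_sdiff]
    have hx2 : x ∈ (K.erase P).biUnion id → x ∉ P := fun h1 h2 =>
      (Finset.disjoint_left.mp hdisj) h1 h2
    have hx3 : x ∈ T → x ∈ P := fun hx => mem_of_mem_erase (hTP hx)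
    simp only [mem_union, mem_sdiff, mem_erase, mem_insert, not_or]
    constructor
    · rintro (h1 | ⟨⟨h2, h3⟩, h4⟩)
      · have := hx1.mp (Or.inl h1)
        refine ⟨this.1, this.2, ?_, ?_⟩
        · rintro rfl; exact hx2 h1 hv
        · intro h5; exact hx2 h1 (hx3 h5)
      · have := hx1.mp (Or.inr h3)
        exact ⟨this.1, this.2, h2, h4⟩
    · rintro ⟨h1, h2, h3, h4⟩
      rcases hx1.mpr ⟨h1, h2⟩ with h5 | h5
      · exact Or.inl h5
      · exact Or.inr ⟨⟨h3, h5⟩, h4⟩
  · intro B hB Q hQ R hR hBQ hBR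
    simp only [mem_union, mem_erase] at hQ hR
    have hmono : ∀ R ∈ L, (B ∩ R).Nonempty → (B ∩ P).Nonempty := fun R hR hBR =>
      hBR.mono (inter_subset_inter_left (hLP R hR))
    rcases hQ with ⟨hQP, hQ⟩ | hQ <;> rcases hR with ⟨hRP, hR⟩ | hR
    · exact h.sep B hB Q hQ R hR hBQ hBR
    · exact absurd (h.sep B hB Q hQ P hP hBQ (hmono R hR hBR)) hQP
    · exact absurd (h.sep B hB R hR P hP hBR (hmono Q hQ hBQ)) hRP
    · exact hL.sep B hB Q hQ R hR hBQ hBR
  · rw [card_union_of_disjoint, card_insert_of_notMem hvT]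
    · omega
    · rw [Finset.disjoint_left]
      intro x hxS hx
      rw [mem_insert] at hx
      have hxP : x ∈ P := by
        rcases hx with rfl | hx
        · exact hv
        · exact mem_of_mem_erase (hTP hx)
      exact (mem_sdiff.mp (hPV hxP)).2 hxS
  · unfold oddCount
    rw [filter_union, card_union_of_disjoint]
    rw [Finset.disjoint_left]
    intro Q hQ hQ'
    simp only [mem_filter, mem_erase] at hQ hQ'
    have hne : Q.Nonempty := by
      rw [← card_pos]; rcases hQ.2 with ⟨c, hc⟩; omega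
    obtain ⟨x, hx⟩ := hne
    exact (Finset.disjoint_left.mp (h.disj Q hQ.1.2 P hP hQ.1.1)) hx (hLP Q hQ'.1 hx)

lemma oddCount_erase_odd {P : Finset α} (hP : P ∈ K) (ho : Odd P.card) :
    oddCount (K.erase P) + 1 = oddCount K := by
  unfold oddCount
  rw [filter_erase, card_erase_add_one]
  simp [hP, ho]

lemma oddCount_erase_even {P : Finset α} (ho : ¬ Odd P.card) :
    oddCount (K.erase P) = oddCount K := by
  unfold oddCount
  rw [filter_erase, erase_eq_of_notMem]
  simp [ho]

/-- `x` is joined to `Q` by a member of `E`. -/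
def Adj (E : Finset (Finset α)) (x : α) (Q : Finset α) : Prop := ∃ B ∈ E, x ∈ B ∧ (B ∩ Q).Nonempty

lemma cov_insert_part {x : α} {Q : Finset α} (hQ : Q ⊆ E.sup id) (h : Adj E x Q)
    (hn : ∀ w ∈ Q, 2 * tau E (Q.erase w) + 1 ≤ Q.card) :
    ∃ m, Cov E (insert x Q) m ∧ 2 * m ≤ Q.card + 1 := by
  obtain ⟨B, hB, hxB, ⟨y, hy⟩⟩ := h
  rw [mem_inter] at hy
  have h1 : Cov E (Q.erase y) (tau E (Q.erase y)) := cov_tau ((erase_subset _ _).trans hQ)
  refine ⟨1 + tau E (Q.erase y), ((cov_mem hB).union h1).subset ?_, ?_⟩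
  · intro z hz
    rw [mem_insert] at hz
    rw [mem_union, mem_erase]
    rcases hz with rfl | hz
    · exact Or.inl hxB
    · by_cases hzy : z = y
      · subst hzy; exact Or.inl hy.1
      · exact Or.inr ⟨hzy, hz⟩
  · have := hn y hy.2
    omega

/-- A nice configuration. -/
structure IsNice (E : Finset (Finset α)) (V S : Finset α) (K : Finset (Finset α)) : Prop where
  conf : IsConf E V S K
  odd : ∀ P ∈ K, Odd P.card
  crit : ∀ P ∈ K, ∀ v ∈ P, 2 * tau E (P.erase v) + 1 ≤ P.card
  le : S.card ≤ K.card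

open Classical in
/-- If `Y` has a nice configuration and no strict configuration then `2 τ(Y) ≤ |Y|`. -/
lemma two_tau_le_of_no_strict {Y X : Finset α} {L : Finset (Finset α)} (hYE : Y ⊆ E.sup id)
    (hn : IsNice E Y X L)
    (hstrict : ∀ T M, IsConf E Y T M → oddCount M ≤ T.card) : 2 * tau E Y ≤ Y.card := by
  have hLodd : oddCount L = L.card := by
    unfold oddCount
    rw [filter_true_of_mem hn.odd]
  have hcard : X.card = L.card := le_antisymm hn.le (by rw [← hLodd]; exact hstrict _ _ hn.conf)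
  -- Hall
  let N : {x // x ∈ X} → Finset (Finset α) := fun x => L.filter (fun Q => Adj E x.1 Q)
  have hall : ∀ s : Finset {x // x ∈ X}, s.card ≤ (s.biUnion N).card := by
    by_contra hcon
    push Not at hcon
    obtain ⟨s, hs⟩ := hcon
    set X' : Finset α := s.map ⟨Subtype.val, Subtype.val_injective⟩ with hX'
    have hX'card : X'.card = s.card := card_map _
    have hX'X : X' ⊆ X := by
      intro x hx
      rw [hX', mem_map] at hx
      obtain ⟨y, _, rfl⟩ := hx
      exact y.2
    set NX := s.biUnion N with hNX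
    have hNL : NX ⊆ L := by
      intro Q hQ
      rw [hNX, mem_biUnion] at hQ
      obtain ⟨x, _, hx⟩ := hQ
      exact (mem_filter.mp hx).1
    have hNmem : ∀ Q ∈ L, (∃ x ∈ X', Adj E x Q) → Q ∈ NX := by
      rintro Q hQ ⟨x, hx, hadj⟩
      rw [hX', mem_map] at hx
      obtain ⟨y, hy, rfl⟩ := hx
      rw [hNX, mem_biUnion]
      exact ⟨y, hy, mem_filter.mpr ⟨hQ, hadj⟩⟩
    set R : Finset α := X' ∪ NX.biUnion id with hR
    have hconf := hn.conf
    -- new configuration
    have hnew : IsConf E Y (X \ X') (insert R (L \ NX)) := by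
      refine ⟨sdiff_subset.trans hconf.sub, ?_, ?_, ?_⟩
      · have hRQ : ∀ Q ∈ L \ NX, Disjoint R Q := by
          intro Q hQ
          rw [mem_sdiff] at hQ
          rw [hR, disjoint_union_left]
          constructor
          · rw [Finset.disjoint_left]
            intro x hx hxQ
            exact (mem_sdiff.mp (hconf.part_sub hQ.1 hxQ)).2 (hX'X hx)
          · rw [disjoint_biUnion_left]
            intro P hP
            exact hconf.disj P (hNL hP) Q hQ.1 (fun h => hQ.2 (h ▸ hP))
        intro P hP Q hQ hne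
        rw [mem_insert] at hP hQ
        rcases hP with rfl | hP <;> rcases hQ with rfl | hQ
        · exact absurd rfl hne
        · exact hRQ Q hQ
        · exact (hRQ P hP).symm
        · exact hconf.disj P (mem_sdiff.mp hP).1 Q (mem_sdiff.mp hQ).1 hne
      · rw [biUnion_insert, id, hR]
        have hu := hconf.union
        have hLs : L.biUnion id = NX.biUnion id ∪ (L \ NX).biUnion id := by
          rw [← union_biUnion, union_sdiff_of_subset hNL]
        ext x
        have hx := congrArg (fun s => x ∈ s) hu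
        simp only [hLs, eq_iff_iff] at hx
        rw [mem_union, mem_sdiff] at hx
        have hxs : x ∈ X' → x ∈ X := fun h => hX'X h
        have hxY : x ∈ X → x ∈ Y := fun h => hconf.sub h
        rw [mem_union, mem_union, mem_sdiff, mem_sdiff]
        tauto
      · have key : ∀ B ∈ E, ∀ Q ∈ L \ NX, (B ∩ R).Nonempty → (B ∩ Q).Nonempty → False := by
          rintro B hB Q hQ ⟨x, hx⟩ hBQ
          rw [mem_sdiff] at hQ
          rw [mem_inter, hR, mem_union, mem_biUnion] at hx
          rcases hx.2 with hx2 | ⟨P, hP, hxP⟩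
          · exact hQ.2 (hNmem Q hQ.1 ⟨x, hx2, B, hB, hx.1, hBQ⟩)
          · have := hconf.sep B hB P (hNL hP) Q hQ.1 ⟨x, mem_inter.mpr ⟨hx.1, hxP⟩⟩ hBQ
            exact hQ.2 (this ▸ hP)
        intro B hB P hP Q hQ hBP hBQ
        rw [mem_insert] at hP hQ
        rcases hP with rfl | hP <;> rcases hQ with rfl | hQ
        · rfl
        · exact (key B hB Q hQ hBP hBQ).elim
        · exact (key B hB P hP hBQ hBP).elim
        · exact hconf.sep B hB P (mem_sdiff.mp hP).1 Q (mem_sdiff.mp hQ).1 hBP hBQ
    have hle := hstrict _ _ hnew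
    have hge : (L \ NX).card ≤ oddCount (insert R (L \ NX)) := by
      unfold oddCount
      apply card_le_card
      intro Q hQ
      rw [mem_filter, mem_insert]
      exact ⟨Or.inr hQ, hn.odd Q (mem_sdiff.mp hQ).1⟩
    have c1 : (L \ NX).card = L.card - NX.card := card_sdiff_of_subset hNL
    have c2 : (X \ X').card = X.card - X'.card := card_sdiff_of_subset hX'X
    have c3 := card_le_card hNL
    have c4 := card_le_card hX'X
    omega
  obtain ⟨f, hf, hfN⟩ := (Finset.all_card_le_biUnion_card_iff_exists_injective N).mp hall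
  -- f : X → L injective, hence bijective onto L
  have hfL : ∀ x, f x ∈ L := fun x => (mem_filter.mp (hfN x)).1
  have hfA : ∀ x, Adj E x.1 (f x) := fun x => (mem_filter.mp (hfN x)).2
  have himg : (Finset.univ.image f) = L := by
    apply eq_of_subset_of_card_le
    · intro Q hQ
      rw [mem_image] at hQ
      obtain ⟨x, _, rfl⟩ := hQ
      exact hfL x
    · rw [card_image_of_injective _ hf, card_univ, Fintype.card_coe, hcard]
  have hLE : ∀ Q ∈ L, Q ⊆ E.sup id := fun Q hQ =>
    ((hn.conf.part_sub hQ).trans sdiff_subset).trans hYE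
  have hcov : ∀ x : {x // x ∈ X}, ∃ m, Cov E (insert x.1 (f x)) m ∧ 2 * m ≤ (f x).card + 1 :=
    fun x => cov_insert_part (hLE _ (hfL x)) (hfA x) (hn.crit _ (hfL x))
  choose g hg1 hg2 using hcov
  have hall2 := Cov.biUnion (E := E) (Finset.univ : Finset {x // x ∈ X})
    (fun x => insert x.1 (f x)) g (fun x _ => hg1 x)
  have hYsub : Y ⊆ (Finset.univ : Finset {x // x ∈ X}).biUnion (fun x => insert x.1 (f x)) := by
    intro y hy
    rw [mem_biUnion]
    by_cases hyX : y ∈ X
    · exact ⟨⟨y, hyX⟩, mem_univ _, mem_insert_self _ _⟩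
    · have : y ∈ L.biUnion id := by rw [hn.conf.union, mem_sdiff]; exact ⟨hy, hyX⟩
      rw [mem_biUnion] at this
      obtain ⟨Q, hQ, hyQ⟩ := this
      rw [← himg, mem_image] at hQ
      obtain ⟨x, _, rfl⟩ := hQ
      exact ⟨x, mem_univ _, mem_insert_of_mem hyQ⟩
  have h1 := tau_le (hall2.subset hYsub)
  have h2 : 2 * ∑ x : {x // x ∈ X}, g x ≤ ∑ x : {x // x ∈ X}, ((f x).card + 1) := by
    rw [mul_sum]
    exact sum_le_sum fun x _ => hg2 x
  have h3 : ∑ x : {x // x ∈ X}, ((f x).card + 1) = (∑ Q ∈ L, Q.card) + X.card := by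
    rw [sum_add_distrib, ← himg, sum_image (fun x _ y _ h => hf h)]
    simp
  have h4 := hn.conf.card
  omega

/-- Every coverable set has a nice configuration. -/
theorem exists_nice (E : Finset (Finset α)) :
    ∀ n : ℕ, ∀ V : Finset α, V.card = n → V ⊆ E.sup id → ∃ S K, IsNice E V S K := by
  classical
  intro n
  induction n using Nat.strong_induction_on with
  | _ n ih =>
  intro V hVn hVE
  -- maximal configuration
  let C : Finset (Finset α) := V.powerset.filter fun S => ∃ K, IsConf E V S K ∧ S.card ≤ oddCount K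
  have hCne : C.Nonempty := by
    by_cases hodd : Odd V.card
    · refine ⟨∅, mem_filter.mpr ⟨by simp, {V}, isConf_single V, by simp⟩⟩
    · rcases V.eq_empty_or_nonempty with rfl | ⟨v, hv⟩
      · exact ⟨∅, mem_filter.mpr ⟨by simp, {∅}, isConf_single ∅, by simp⟩⟩
      · have hc := (isConf_single (E := E) V).compose (mem_singleton_self V) hv
          (isConf_single (E := E) (V.erase v))
        refine ⟨∅ ∪ insert v ∅, mem_filter.mpr ⟨mem_powerset.mpr hc.1.sub, _, hc.1, ?_⟩⟩
        rw [hc.2.1, hc.2.2]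
        have : oddCount ({V.erase v} : Finset (Finset α)) = 1 := by
          unfold oddCount
          rw [filter_true_of_mem, card_singleton]
          intro P hP
          rw [mem_singleton] at hP
          subst hP
          rw [card_erase_of_mem hv, Nat.odd_iff]
          rw [Nat.odd_iff] at hodd
          have := card_pos.mpr ⟨v, hv⟩
          omega
        rw [this]; simp
  obtain ⟨S, hSC, hmax⟩ := exists_max_image C card hCne
  obtain ⟨hSV, K, hK, hle⟩ := mem_filter.mp hSC
  have hmax' : ∀ T M, IsConf E V T M → T.card ≤ oddCount M → T.card ≤ S.card := by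
    intro T M hM hTM
    exact hmax T (mem_filter.mpr ⟨mem_powerset.mpr hM.sub, M, hM, hTM⟩)
  -- all nonempty parts are odd
  have hoddp : ∀ P ∈ K, P.Nonempty → Odd P.card := by
    intro P hP ⟨v, hv⟩
    by_contra hne
    have hc := hK.compose hP hv (isConf_single (E := E) (P.erase v))
    have := hmax' _ _ hc.1 (by
      rw [hc.2.1, hc.2.2, oddCount_erase_even hne]
      have : oddCount ({P.erase v} : Finset (Finset α)) = 1 := by
        unfold oddCount
        rw [filter_true_of_mem, card_singleton]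
        intro Q hQ
        rw [mem_singleton] at hQ
        subst hQ
        rw [card_erase_of_mem hv, Nat.odd_iff]
        rw [Nat.odd_iff] at hne
        have := card_pos.mpr ⟨v, hv⟩
        omega
      rw [this]; simp; omega)
    rw [hc.2.1] at this
    omega
  have hPE : ∀ P ∈ K, P ⊆ E.sup id := fun P hP => ((hK.part_sub hP).trans sdiff_subset).trans hVE
  -- parts are critical
  have hcrit : ∀ P ∈ K, ∀ v ∈ P, 2 * tau E (P.erase v) + 1 ≤ P.card := by
    intro P hP v hv
    have hodd := hoddp P hP ⟨v, hv⟩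
    have hPV : P.card ≤ V.card := card_le_card ((hK.part_sub hP).trans sdiff_subset)
    have hlt : (P.erase v).card < n := by
      rw [card_erase_of_mem hv]
      have := card_pos.mpr ⟨v, hv⟩
      omega
    have hPvE : P.erase v ⊆ E.sup id := (erase_subset _ _).trans (hPE P hP)
    obtain ⟨X, L, hL⟩ := ih _ hlt (P.erase v) rfl hPvE
    have h1 := two_tau_le_of_no_strict hPvE hL (by
      intro T M hM
      by_contra hcon
      push Not at hcon
      have hpar := hM.parity
      have hcc : (P.erase v).card % 2 = 0 := by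
        rw [card_erase_of_mem hv]
        rw [Nat.odd_iff] at hodd
        have := card_pos.mpr ⟨v, hv⟩
        omega
      have hge : T.card + 2 ≤ oddCount M := by omega
      have hc := hK.compose hP hv hM
      have hoe := oddCount_erase_odd hP hodd
      have := hmax' _ _ hc.1 (by rw [hc.2.1, hc.2.2]; omega)
      rw [hc.2.1] at this
      omega)
    rw [card_erase_of_mem hv] at h1
    have := card_pos.mpr ⟨v, hv⟩
    omega
  -- remove the empty part
  refine ⟨S, K.erase ∅, ⟨⟨hK.sub, ?_, ?_, ?_⟩, ?_, ?_, ?_⟩⟩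
  · intro P hP Q hQ hne
    exact hK.disj P (mem_of_mem_erase hP) Q (mem_of_mem_erase hQ) hne
  · rw [← hK.union]
    ext x
    simp only [mem_biUnion, mem_erase, id]
    constructor
    · rintro ⟨P, ⟨_, hP⟩, hx⟩; exact ⟨P, hP, hx⟩
    · rintro ⟨P, hP, hx⟩
      exact ⟨P, ⟨fun h => by simp [h] at hx, hP⟩, hx⟩
  · intro B hB P hP Q hQ
    exact hK.sep B hB P (mem_of_mem_erase hP) Q (mem_of_mem_erase hQ)
  · intro P hP
    exact hoddp P (mem_of_mem_erase hP) (nonempty_iff_ne_empty.mpr (ne_of_mem_erase hP))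
  · intro P hP
    exact hcrit P (mem_of_mem_erase hP)
  · refine hle.trans ?_
    unfold oddCount
    apply card_le_card
    intro P hP
    rw [mem_filter] at hP
    rw [mem_erase]
    refine ⟨?_, hP.1⟩
    rintro rfl
    simp at hP

end Pool.Agent.Helper62_CoverFree
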