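import Mathlib
import Pool.Agent.Helper62_CoverFree.Cover

/-!
The key inequality `τ(V)² ≤ W(V) · ∑_{x ∈ V} 1 / deg x`.
-/

set_option autoImplicit false

namespace Pool.Agent.Helper62_CoverFree

open Finset

variable {α : Type*} [DecidableEq α]

/-- Number of members of `E` containing `x`. -/
def deg (E : Finset (Finset α)) (x : α) : ℕ := (E.filter fun B => x ∈ B).card

/-- Number of members of `E` meeting `V`. -/
def wt (E : Finset (Finset α)) (V : Finset α) : ℕ := (E.filter fun B => (B ∩ V).Nonempty).card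

variable {E : Finset (Finset α)}

lemma deg_pos {x : α} (hx : x ∈ E.sup id) : 0 < deg E x := by
  rw [mem_sup] at hx
  obtain ⟨B, hB, hxB⟩ := hx
  exact card_pos.mpr ⟨B, mem_filter.mpr ⟨hB, hxB⟩⟩

lemma wt_mono {V W : Finset α} (h : V ⊆ W) : wt E V ≤ wt E W := by
  apply card_le_card
  intro B hB
  rw [mem_filter] at hB ⊢
  exact ⟨hB.1, hB.2.mono (inter_subset_inter_left h)⟩

/-- averaging step -/
lemma averaging {V : Finset α} (hVE : V ⊆ E.sup id)
    (ih : ∀ U, U ⊂ V → ((tau E U : ℕ) : ℝ) ^ 2 ≤ (wt E U : ℝ) * ∑ x ∈ U, 1 / (deg E x : ℝ))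
    (hlt : (wt E V : ℝ) * ∑ x ∈ V, 1 / (deg E x : ℝ) < ((tau E V : ℕ) : ℝ) ^ 2) :
    V.card + 2 ≤ 2 * tau E V := by
  classical
  have hs_nonneg : ∀ U : Finset α, 0 ≤ ∑ x ∈ U, 1 / (deg E x : ℝ) := fun U =>
    sum_nonneg fun x _ => by positivity
  have htpos : 0 < tau E V := by
    rcases Nat.eq_zero_or_pos (tau E V) with h | h
    · rw [h] at hlt
      have := mul_nonneg (Nat.cast_nonneg (α := ℝ) (wt E V)) (hs_nonneg V)
      have h0 : (((0 : ℕ) : ℝ)) ^ 2 = 0 := by norm_num
      rw [h0] at hlt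
      linarith
    · exact h
  have hVne : V.Nonempty := by
    rcases V.eq_empty_or_nonempty with rfl | h
    · rw [tau_empty] at htpos; omega
    · exact h
  set EV := E.filter (fun B => (B ∩ V).Nonempty) with hEV
  have hw : EV.card = wt E V := rfl
  have hwpos : 0 < wt E V := by
    obtain ⟨x, hx⟩ := hVne
    have := hVE hx
    rw [mem_sup] at this
    obtain ⟨B, hB, hxB⟩ := this
    exact card_pos.mpr ⟨B, mem_filter.mpr ⟨hB, ⟨x, mem_inter.mpr ⟨hxB, hx⟩⟩⟩⟩
  have hB1 : ∀ B ∈ EV, ((tau E V : ℕ) : ℝ) ^ 2 - 2 * (tau E V : ℕ) + 1 ≤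
      (wt E V : ℝ) * ∑ x ∈ V \ B, 1 / (deg E x : ℝ) := by
    intro B hB
    rw [hEV, mem_filter] at hB
    have hsub : V \ B ⊂ V := by
      rw [Finset.ssubset_iff_subset_ne]
      refine ⟨sdiff_subset, ?_⟩
      intro h
      obtain ⟨x, hx⟩ := hB.2
      rw [mem_inter] at hx
      have : x ∈ V \ B := by rw [h]; exact hx.2
      exact (mem_sdiff.mp this).2 hx.1
    have h1 := ih _ hsub
    have h2 : tau E V ≤ tau E (V \ B) + 1 := tau_le_sdiff hVE hB.1
    have h3 : ((tau E V : ℕ) : ℝ) ≤ (tau E (V \ B) : ℕ) + 1 := by exact_mod_cast h2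
    have h4 : (1 : ℝ) ≤ ((tau E V : ℕ) : ℝ) := by exact_mod_cast htpos
    have h5 : (wt E (V \ B) : ℝ) * ∑ x ∈ V \ B, 1 / (deg E x : ℝ) ≤
        (wt E V : ℝ) * ∑ x ∈ V \ B, 1 / (deg E x : ℝ) := by
      apply mul_le_mul_of_nonneg_right _ (hs_nonneg _)
      exact_mod_cast wt_mono sdiff_subset
    have h6 : (((tau E V : ℕ) : ℝ) - 1) ^ 2 ≤ ((tau E (V \ B) : ℕ) : ℝ) ^ 2 := by
      apply pow_le_pow_left₀ <;> linarith
    nlinarith
  have hsum := sum_le_sum hB1
  rw [sum_const, ← mul_sum, hw, nsmul_eq_mul] at hsum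
  have hswap : ∑ B ∈ EV, ∑ x ∈ V \ B, 1 / (deg E x : ℝ) =
      (wt E V : ℝ) * (∑ x ∈ V, 1 / (deg E x : ℝ)) - V.card := by
    have h1 : ∀ B ∈ EV, ∑ x ∈ V \ B, 1 / (deg E x : ℝ) =
        ∑ x ∈ V, (1 / (deg E x : ℝ) - if x ∈ B then 1 / (deg E x : ℝ) else 0) := by
      intro B _
      rw [sdiff_eq_filter, sum_filter]
      apply sum_congr rfl
      intro x _
      by_cases hx : x ∈ B <;> simp [hx]
    rw [sum_congr rfl h1, sum_comm]
    simp_rw [sum_sub_distrib]
    rw [mul_sum]
    congr 1
    · apply sum_congr rfl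
      intro x _
      rw [sum_const, nsmul_eq_mul, hw]
    · rw [card_eq_sum_ones, Nat.cast_sum]
      apply sum_congr rfl
      intro x hx
      rw [← sum_filter, sum_const, nsmul_eq_mul]
      have hd : (EV.filter fun B => x ∈ B).card = deg E x := by
        unfold deg
        congr 1
        ext B
        rw [mem_filter, mem_filter, mem_filter]
        constructor
        · rintro ⟨⟨h1, _⟩, h3⟩; exact ⟨h1, h3⟩
        · rintro ⟨h1, h3⟩; exact ⟨⟨h1, ⟨x, mem_inter.mpr ⟨h3, hx⟩⟩⟩, h3⟩
      rw [hd]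
      have : (deg E x : ℝ) ≠ 0 := by
        have := deg_pos (hVE hx)
        positivity
      field_simp
      simp
  rw [hswap] at hsum
  have hwpos' : (0 : ℝ) < (wt E V : ℝ) := by exact_mod_cast hwpos
  have hsum' := le_of_mul_le_mul_left hsum hwpos'
  have hfin : ((V.card : ℕ) : ℝ) + 1 < 2 * ((tau E V : ℕ) : ℝ) := by linarith
  have : V.card + 1 < 2 * tau E V := by exact_mod_cast hfin
  omega

/-- **Key inequality.** -/
theorem key (E : Finset (Finset α)) :
    ∀ n : ℕ, ∀ V : Finset α, V.card = n → V ⊆ E.sup id →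
      ((tau E V : ℕ) : ℝ) ^ 2 ≤ (wt E V : ℝ) * ∑ x ∈ V, 1 / (deg E x : ℝ) := by
  classical
  intro n
  induction n using Nat.strong_induction_on with
  | _ n ih =>
  intro V hVn hVE
  by_contra hlt
  push Not at hlt
  have ih' : ∀ U, U ⊂ V → ((tau E U : ℕ) : ℝ) ^ 2 ≤ (wt E U : ℝ) * ∑ x ∈ U, 1 / (deg E x : ℝ) := by
    intro U hU
    exact ih U.card (hVn ▸ card_lt_card hU) U rfl (hU.1.trans hVE)
  have hav := averaging hVE ih' hlt
  obtain ⟨S, K, hn⟩ := exists_nice E V.card V rfl hVE
  have hconf := hn.conf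
  have hPE : ∀ P ∈ K, P ⊆ E.sup id := fun P hP =>
    ((hconf.part_sub hP).trans sdiff_subset).trans hVE
  have hPV : ∀ P ∈ K, P ⊆ V := fun P hP => (hconf.part_sub hP).trans sdiff_subset
  have hPne : ∀ P ∈ K, P.Nonempty := fun P hP => by
    rw [← card_pos]; rcases hn.odd P hP with ⟨c, hc⟩; omega
  have hup : ∀ P ∈ K, 2 * tau E P ≤ P.card + 1 := by
    intro P hP
    obtain ⟨v, hv⟩ := hPne P hP
    have h1 := hn.crit P hP v hv
    have h2 : tau E P ≤ 1 + tau E (P.erase v) := by
      have h3 := (cov_singleton (hPE P hP hv)).union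
        (cov_tau (E := E) ((erase_subset v P).trans (hPE P hP)))
      refine tau_le (h3.subset ?_)
      intro x hx
      rw [mem_union, mem_singleton, mem_erase]
      by_cases hxv : x = v
      · exact Or.inl hxv
      · exact Or.inr ⟨hxv, hx⟩
    omega
  have hPV' : ∀ P ∈ K, P ⊂ V := by
    intro P hP
    rw [Finset.ssubset_iff_subset_ne]
    refine ⟨hPV P hP, ?_⟩
    rintro rfl
    have := hup P hP
    omega
  let good : Finset (Finset α) := K.filter fun P => P.card < 2 * tau E P
  have hgK : good ⊆ K := filter_subset _ _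
  have hg : ∀ P ∈ good, P.card < 2 * tau E P := fun P hP => (mem_filter.mp hP).2
  let NN : Finset α → Finset α := fun P => S.filter fun s => Adj E s P
  -- either Hall holds or there is a minimal violator
  by_cases hall : ∀ s ⊆ good, s.card ≤ (s.biUnion NN).card
  · -- Case A
    have hall' : ∀ s : Finset {P // P ∈ good}, s.card ≤ (s.biUnion fun P => NN P.1).card := by
      intro s
      have h1 := hall (s.map ⟨Subtype.val, Subtype.val_injective⟩) (by
        intro P hP
        rw [mem_map] at hP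
        obtain ⟨Q, _, rfl⟩ := hP
        exact Q.2)
      rw [card_map] at h1
      convert h1 using 2
      ext x
      simp only [mem_biUnion, mem_map]
      constructor
      · rintro ⟨P, hP, hx⟩; exact ⟨P.1, ⟨P, hP, rfl⟩, hx⟩
      · rintro ⟨P, ⟨Q, hQ, rfl⟩, hx⟩; exact ⟨Q, hQ, hx⟩
    obtain ⟨f, hf, hfN⟩ := (Finset.all_card_le_biUnion_card_iff_exists_injective _).mp hall'
    have hfS : ∀ P, f P ∈ S := fun P => (mem_filter.mp (hfN P)).1
    have hfA : ∀ P, Adj E (f P) P.1 := fun P => (mem_filter.mp (hfN P)).2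
    have hcov : ∀ P : {P // P ∈ good}, ∃ m, Cov E (insert (f P) P.1) m ∧ 2 * m ≤ P.1.card + 1 :=
      fun P => cov_insert_part (hPE _ (hgK P.2)) (hfA P) (hn.crit _ (hgK P.2))
    choose g hg1 hg2 using hcov
    have c1 := Cov.biUnion (E := E) (Finset.univ : Finset {P // P ∈ good})
      (fun P => insert (f P) P.1) g (fun P _ => hg1 P)
    have c2 := Cov.biUnion (E := E) (K \ good) id (fun P => tau E P) (fun P hP =>
      cov_tau (hPE P (mem_sdiff.mp hP).1))
    let I : Finset α := Finset.univ.image f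
    have hIS : I ⊆ S := by
      intro x hx
      rw [mem_image] at hx
      obtain ⟨P, _, rfl⟩ := hx
      exact hfS P
    have hIc : I.card = good.card := by
      rw [card_image_of_injective _ hf, card_univ, Fintype.card_coe]
    have c3 := Cov.biUnion (E := E) (S \ I) (fun x => {x}) (fun _ => 1) (fun x hx =>
      cov_singleton (hVE (hconf.sub (mem_sdiff.mp hx).1)))
    have hsub : V ⊆ ((Finset.univ : Finset {P // P ∈ good}).biUnion fun P => insert (f P) P.1) ∪
        ((K \ good).biUnion id) ∪ ((S \ I).biUnion fun x => {x}) := by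
      intro y hy
      rw [mem_union, mem_union]
      by_cases hyS : y ∈ S
      · by_cases hyI : y ∈ I
        · left; left
          rw [mem_image] at hyI
          obtain ⟨P, _, rfl⟩ := hyI
          exact mem_biUnion.mpr ⟨P, mem_univ _, mem_insert_self _ _⟩
        · right
          exact mem_biUnion.mpr ⟨y, mem_sdiff.mpr ⟨hyS, hyI⟩, mem_singleton_self _⟩
      · have : y ∈ K.biUnion id := by rw [hconf.union, mem_sdiff]; exact ⟨hy, hyS⟩
        rw [mem_biUnion] at this
        obtain ⟨P, hP, hyP⟩ := this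
        by_cases hPg : P ∈ good
        · left; left
          exact mem_biUnion.mpr ⟨⟨P, hPg⟩, mem_univ _, mem_insert_of_mem hyP⟩
        · left; right
          exact mem_biUnion.mpr ⟨P, mem_sdiff.mpr ⟨hP, hPg⟩, hyP⟩
    have hle := tau_le (((c1.union c2).union c3).subset hsub)
    have e1 : 2 * ∑ P : {P // P ∈ good}, g P ≤ (∑ P ∈ good, P.card) + good.card := by
      have h1 : ∑ P : {P // P ∈ good}, (P.1.card + 1) = (∑ P ∈ good, P.card) + good.card := by
        rw [Finset.sum_coe_sort good (fun P => P.card + 1), sum_add_distrib]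
        simp
      rw [← h1, mul_sum]
      exact sum_le_sum fun P _ => hg2 P
    have e2 : 2 * ∑ P ∈ K \ good, tau E P + (K \ good).card ≤ ∑ P ∈ K \ good, P.card := by
      rw [mul_sum, card_eq_sum_ones, ← sum_add_distrib]
      apply sum_le_sum
      intro P hP
      rw [mem_sdiff] at hP
      have h1 : ¬ P.card < 2 * tau E P := fun h => hP.2 (mem_filter.mpr ⟨hP.1, h⟩)
      rcases hn.odd P hP.1 with ⟨c, hc⟩
      omega
    have e3 : ∑ x ∈ S \ I, 1 = S.card - good.card := by
      rw [← card_eq_sum_ones, card_sdiff_of_subset hIS, hIc]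
    have e4 := hconf.card
    have e5 : ∑ P ∈ K \ good, P.card + ∑ P ∈ good, P.card = ∑ P ∈ K, P.card :=
      sum_sdiff hgK
    have e6 : (K \ good).card = K.card - good.card := card_sdiff_of_subset hgK
    have e7 := card_le_card hgK
    have e8 := card_le_card hIS
    have e9 := hn.le
    omega
  · -- Case B
    push Not at hall
    obtain ⟨s0, hs0g, hs0⟩ := hall
    let D : Finset (Finset (Finset α)) :=
      good.powerset.filter fun s => (s.biUnion NN).card < s.card
    have hDne : D.Nonempty := ⟨s0, mem_filter.mpr ⟨mem_powerset.mpr hs0g, hs0⟩⟩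
    obtain ⟨s, hsD, hmin⟩ := exists_min_image D card hDne
    obtain ⟨hsg, hs⟩ := mem_filter.mp hsD
    rw [mem_powerset] at hsg
    have hsK : s ⊆ K := hsg.trans hgK
    have hsne : s.Nonempty := card_pos.mp (lt_of_le_of_lt (Nat.zero_le _) hs)
    obtain ⟨P0, hP0⟩ := hsne
    have hall' : ∀ u : Finset {P // P ∈ s.erase P0}, u.card ≤ (u.biUnion fun P => NN P.1).card := by
      intro u
      by_contra hcon
      push Not at hcon
      set u' := u.map ⟨Subtype.val, Subtype.val_injective⟩ with hu'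
      have hu's : u' ⊆ s.erase P0 := by
        intro P hP
        rw [hu', mem_map] at hP
        obtain ⟨Q, _, rfl⟩ := hP
        exact Q.2
      have hcc : (u'.biUnion NN).card < u'.card := by
        rw [hu', card_map]
        have heq : (u.map ⟨Subtype.val, Subtype.val_injective⟩).biUnion NN =
            u.biUnion fun P => NN P.1 := by
          ext x
          simp only [mem_biUnion, mem_map]
          constructor
          · rintro ⟨P, ⟨Q, hQ, rfl⟩, hx⟩; exact ⟨Q, hQ, hx⟩
          · rintro ⟨P, hP, hx⟩; exact ⟨P.1, ⟨P, hP, rfl⟩, hx⟩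
        rw [heq]
        exact hcon
      have := hmin u' (mem_filter.mpr ⟨mem_powerset.mpr
        ((hu's.trans (erase_subset _ _)).trans hsg), hcc⟩)
      have h2 := card_le_card hu's
      rw [card_erase_of_mem hP0] at h2
      have := card_pos.mpr ⟨P0, hP0⟩
      omega
    obtain ⟨f, hf, hfN⟩ := (Finset.all_card_le_biUnion_card_iff_exists_injective _).mp hall'
    have hfS : ∀ P, f P ∈ S := fun P => (mem_filter.mp (hfN P)).1
    have hfA : ∀ P, Adj E (f P) P.1 := fun P => (mem_filter.mp (hfN P)).2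
    set N0 := s.biUnion NN with hN0
    have hN0S : N0 ⊆ S := by
      intro x hx
      rw [hN0, mem_biUnion] at hx
      obtain ⟨P, _, hx⟩ := hx
      exact (mem_filter.mp hx).1
    have himg : Finset.univ.image f = N0 := by
      apply eq_of_subset_of_card_le
      · intro x hx
        rw [mem_image] at hx
        obtain ⟨P, _, rfl⟩ := hx
        rw [hN0, mem_biUnion]
        exact ⟨P.1, mem_of_mem_erase P.2, hfN P⟩
      · rw [card_image_of_injective _ hf, card_univ, Fintype.card_coe, card_erase_of_mem hP0]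
        omega
    have hcov : ∀ P : {P // P ∈ s.erase P0}, ∃ m, Cov E (insert (f P) P.1) m ∧
        2 * m ≤ P.1.card + 1 :=
      fun P => cov_insert_part (hPE _ (hsK (mem_of_mem_erase P.2))) (hfA P)
        (hn.crit _ (hsK (mem_of_mem_erase P.2)))
    choose g hg1 hg2 using hcov
    have hg3 : ∀ P, g P ≤ tau E P.1 := by
      intro P
      have h1 := hg2 P
      have h2 := hg P.1 (hsg (mem_of_mem_erase P.2))
      omega
    have c1 := Cov.biUnion (E := E) (Finset.univ : Finset {P // P ∈ s.erase P0})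
      (fun P => insert (f P) P.1) (fun P => tau E P.1) (fun P _ => (hg1 P).mono (hg3 P))
    have c2 : Cov E P0 (tau E P0) := cov_tau (hPE P0 (hsK hP0))
    set A2 := N0 ∪ s.biUnion id with hA2
    set V' := V \ A2 with hV'
    have c3 : Cov E V' (tau E V') := cov_tau (sdiff_subset.trans hVE)
    have hsub : V ⊆ ((Finset.univ : Finset {P // P ∈ s.erase P0}).biUnion
        fun P => insert (f P) P.1) ∪ P0 ∪ V' := by
      intro y hy
      rw [mem_union, mem_union]
      by_cases hyA : y ∈ A2
      · left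
        rw [hA2, mem_union] at hyA
        rcases hyA with hyN | hys
        · left
          rw [← himg, mem_image] at hyN
          obtain ⟨P, _, rfl⟩ := hyN
          exact mem_biUnion.mpr ⟨P, mem_univ _, mem_insert_self _ _⟩
        · rw [mem_biUnion] at hys
          obtain ⟨P, hP, hyP⟩ := hys
          by_cases hPP : P = P0
          · subst hPP; right; exact hyP
          · left
            exact mem_biUnion.mpr ⟨⟨P, mem_erase.mpr ⟨hPP, hP⟩⟩, mem_univ _,
              mem_insert_of_mem hyP⟩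
      · right
        exact mem_sdiff.mpr ⟨hy, hyA⟩
    have hle := tau_le (((c1.union c2).union c3).subset hsub)
    have hsum1 : ∑ P : {P // P ∈ s.erase P0}, tau E P.1 + tau E P0 = ∑ P ∈ s, tau E P := by
      rw [Finset.sum_coe_sort (s.erase P0) (fun P => tau E P), add_comm, add_sum_erase s _ hP0]
    rw [hsum1] at hle
    -- V' is not a member of s
    have hV'disj : ∀ P ∈ s, Disjoint V' P := by
      intro P hP
      rw [Finset.disjoint_left]
      intro x hx hxP
      rw [hV', mem_sdiff, hA2, mem_union] at hx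
      exact hx.2 (Or.inr (mem_biUnion.mpr ⟨P, hP, hxP⟩))
    have hV's : V' ∉ s := by
      intro h
      have h1 := hV'disj V' h
      rw [disjoint_self_iff_empty] at h1
      obtain ⟨x, hx⟩ := hPne V' (hsK h)
      rw [h1] at hx
      simp at hx
    have hV'V : V' ⊂ V := by
      rw [Finset.ssubset_iff_subset_ne]
      refine ⟨sdiff_subset, ?_⟩
      intro h
      obtain ⟨x, hx⟩ := hPne P0 (hsK hP0)
      have h1 : x ∈ V' := by rw [h]; exact hPV P0 (hsK hP0) hx
      exact (Finset.disjoint_left.mp (hV'disj P0 hP0)) h1 hx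
    have hcs := Finset.sum_sq_le_sum_mul_sum_of_sq_le_mul (insert V' s)
      (r := fun Q => ((tau E Q : ℕ) : ℝ))
      (f := fun Q => (wt E Q : ℝ)) (g := fun Q => ∑ x ∈ Q, 1 / (deg E x : ℝ))
      (fun Q _ => Nat.cast_nonneg _) (fun Q _ => sum_nonneg fun x _ => by positivity)
      (by
        intro Q hQ
        rw [mem_insert] at hQ
        rcases hQ with rfl | hQ
        · exact ih' _ hV'V
        · exact ih' _ (hPV' Q (hsK hQ)))
    -- total weights
    have hwt : ∑ Q ∈ insert V' s, wt E Q ≤ wt E V := by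
      unfold wt
      rw [← card_biUnion]
      · apply card_le_card
        intro B hB
        rw [mem_biUnion] at hB
        obtain ⟨Q, hQ, hBQ⟩ := hB
        rw [mem_filter] at hBQ ⊢
        refine ⟨hBQ.1, hBQ.2.mono (inter_subset_inter_left ?_)⟩
        rw [mem_insert] at hQ
        rcases hQ with rfl | hQ
        · exact hV'V.1
        · exact hPV Q (hsK hQ)
      · have key : ∀ B ∈ E, ∀ P ∈ s, (B ∩ V').Nonempty → (B ∩ P).Nonempty → False := by
          rintro B hB P hP ⟨x, hx⟩ hBP
          rw [mem_inter, hV', mem_sdiff, hA2, mem_union] at hx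
          obtain ⟨hxB, hxV, hxn⟩ := hx
          by_cases hxS : x ∈ S
          · apply hxn
            left
            exact mem_biUnion.mpr ⟨P, hP, mem_filter.mpr ⟨hxS, B, hB, hxB, hBP⟩⟩
          · have : x ∈ K.biUnion id := by rw [hconf.union, mem_sdiff]; exact ⟨hxV, hxS⟩
            rw [mem_biUnion] at this
            obtain ⟨Q, hQ, hxQ⟩ := this
            have := hconf.sep B hB Q hQ P (hsK hP) ⟨x, mem_inter.mpr ⟨hxB, hxQ⟩⟩ hBP
            subst this
            exact hxn (Or.inr (mem_biUnion.mpr ⟨Q, hP, hxQ⟩))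
        intro P hP Q hQ hne
        simp only [coe_insert, Set.mem_insert_iff, mem_coe] at hP hQ
        show Disjoint _ _
        rw [Finset.disjoint_left]
        intro B hB1 hB2
        rw [mem_filter] at hB1 hB2
        rcases hP with rfl | hP <;> rcases hQ with rfl | hQ
        · exact hne rfl
        · exact key B hB1.1 Q hQ hB1.2 hB2.2
        · exact key B hB1.1 P hP hB2.2 hB1.2
        · exact hne (hconf.sep B hB1.1 P (hsK hP) Q (hsK hQ) hB1.2 hB2.2)
    have hsg2 : ∑ Q ∈ insert V' s, ∑ x ∈ Q, 1 / (deg E x : ℝ) ≤ ∑ x ∈ V, 1 / (deg E x : ℝ) := by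
      have h1 : ∑ Q ∈ insert V' s, ∑ x ∈ Q, 1 / (deg E x : ℝ) =
          ∑ x ∈ (insert V' s).biUnion id, 1 / (deg E x : ℝ) := by
        rw [sum_biUnion]
        · rfl
        · intro P hP Q hQ hne
          simp only [coe_insert, Set.mem_insert_iff, mem_coe] at hP hQ
          show Disjoint _ _
          rcases hP with rfl | hP <;> rcases hQ with rfl | hQ
          · exact absurd rfl hne
          · exact hV'disj Q hQ
          · exact (hV'disj P hP).symm
          · exact hconf.disj P (hsK hP) Q (hsK hQ) hne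
      rw [h1]
      apply sum_le_sum_of_subset_of_nonneg
      · intro x hx
        rw [mem_biUnion] at hx
        obtain ⟨Q, hQ, hxQ⟩ := hx
        rw [mem_insert] at hQ
        rcases hQ with rfl | hQ
        · exact hV'V.1 hxQ
        · exact hPV Q (hsK hQ) hxQ
      · intro x _ _
        positivity
    have hτ : ((tau E V : ℕ) : ℝ) ≤ ∑ Q ∈ insert V' s, ((tau E Q : ℕ) : ℝ) := by
      rw [sum_insert hV's, ← Nat.cast_sum, ← Nat.cast_add]
      exact_mod_cast (by omega : tau E V ≤ tau E V' + ∑ P ∈ s, tau E P)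
    have hτ2 : ((tau E V : ℕ) : ℝ) ^ 2 ≤ (∑ Q ∈ insert V' s, ((tau E Q : ℕ) : ℝ)) ^ 2 :=
      pow_le_pow_left₀ (Nat.cast_nonneg _) hτ 2
    have hfin : (∑ Q ∈ insert V' s, (wt E Q : ℝ)) *
        (∑ Q ∈ insert V' s, ∑ x ∈ Q, 1 / (deg E x : ℝ)) ≤
        (wt E V : ℝ) * ∑ x ∈ V, 1 / (deg E x : ℝ) := by
      apply mul_le_mul _ hsg2
      · exact sum_nonneg fun Q _ => sum_nonneg fun x _ => by positivity
      · exact Nat.cast_nonneg _
      · rw [← Nat.cast_sum]
        exact_mod_cast hwt
    linarith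

end Pool.Agent.Helper62_CoverFree
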