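import Mathlib
import Pool.Agent.Helper62_CoverFree.Key

/-!
Lower bound: a `t`-cover-free family with more members than points lives on more than `t²` points.
-/

set_option autoImplicit false

namespace Pool.Agent.Helper62_CoverFree

open Finset

variable {α : Type*} [DecidableEq α]

/-- No member of `F` is contained in the union of at most `t` other members. -/
def CoverFree (t : ℕ) (F : Finset (Finset α)) : Prop :=
  ∀ A ∈ F, ∀ S ⊆ F.erase A, S.card ≤ t → ¬ A ⊆ S.sup id

lemma CoverFree.mono {t : ℕ} {F G : Finset (Finset α)} (h : CoverFree t F) (hG : G ⊆ F) :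
    CoverFree t G := by
  intro A hA S hS
  exact h A (hG hA) S (hS.trans (erase_subset_erase _ hG))

/-- **Lower bound.** -/
theorem lower (t : ℕ) (ht : 1 ≤ t) : ∀ n : ℕ, ∀ X : Finset α, X.card = n →
    ∀ F : Finset (Finset α), (∀ A ∈ F, A ⊆ X) → n < F.card → CoverFree t F →
      (t : ℝ) * (t + 1) ^ 2 ≤ n * (t + 2) := by
  intro n
  induction n using Nat.strong_induction_on with
  | _ n ih =>
  intro X hX F hFX hcard hCF
  by_cases hdeg : ∃ x ∈ X, deg F x ≤ 1
  · obtain ⟨x, hx, hd⟩ := hdeg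
    have hpos : 0 < X.card := card_pos.mpr ⟨x, hx⟩
    have h1 : (X.erase x).card = n - 1 := by rw [card_erase_of_mem hx, hX]
    have h2 : (F.filter fun A => ¬ x ∈ A).card + deg F x = F.card := by
      unfold deg
      rw [add_comm, card_filter_add_card_filter_not]
    have h3 := ih (n - 1) (by omega) (X.erase x) h1 (F.filter fun A => ¬ x ∈ A)
      (by
        intro A hA
        rw [mem_filter] at hA
        exact subset_erase.mpr ⟨hFX A hA.1, hA.2⟩)
      (by omega) (hCF.mono (filter_subset _ _))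
    have h4 : (((n - 1 : ℕ)) : ℝ) ≤ n := by exact_mod_cast Nat.sub_le _ _
    have h5 : (((n - 1 : ℕ)) : ℝ) * ((t : ℝ) + 2) ≤ n * ((t : ℝ) + 2) :=
      mul_le_mul_of_nonneg_right h4 (by positivity)
    linarith
  · push Not at hdeg
    have hdpos : ∀ x ∈ X, (0 : ℝ) < (deg F x : ℝ) := by
      intro x hx
      have := hdeg x hx
      exact_mod_cast (by omega : 0 < deg F x)
    -- double counting
    have hdc : ∑ A ∈ F, ∑ x ∈ A, 1 / (deg F x : ℝ) = (n : ℝ) := by
      have h1 : ∀ A ∈ F, ∑ x ∈ A, 1 / (deg F x : ℝ) =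
          ∑ x ∈ X, if x ∈ A then 1 / (deg F x : ℝ) else 0 := by
        intro A hA
        rw [← sum_filter]
        apply sum_congr _ (fun _ _ => rfl)
        ext x
        rw [mem_filter]
        exact ⟨fun h => ⟨hFX A hA h, h⟩, fun h => h.2⟩
      rw [sum_congr rfl h1, sum_comm, ← hX, card_eq_sum_ones, Nat.cast_sum]
      apply sum_congr rfl
      intro x hx
      rw [← sum_filter, sum_const, nsmul_eq_mul]
      have := hdpos x hx
      change (deg F x : ℝ) * (1 / (deg F x : ℝ)) = ((1 : ℕ) : ℝ)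
      field_simp
      simp
    have hFpos : 0 < F.card := by omega
    have hFposR : (0 : ℝ) < F.card := by exact_mod_cast hFpos
    obtain ⟨A, hA, hAle⟩ : ∃ A ∈ F, ∑ x ∈ A, 1 / (deg F x : ℝ) ≤ (n : ℝ) / F.card := by
      apply exists_le_of_sum_le (card_pos.mp hFpos)
      rw [hdc, sum_const, nsmul_eq_mul]
      field_simp
      exact le_refl _
    set E := F.erase A with hE
    have hAX := hFX A hA
    have hdE : ∀ x ∈ A, deg E x + 1 = deg F x := by
      intro x hx
      unfold deg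
      rw [hE, filter_erase, card_erase_add_one]
      exact mem_filter.mpr ⟨hA, hx⟩
    have hAE : A ⊆ E.sup id := by
      intro x hx
      have h1 := hdE x hx
      have h2 := hdeg x (hAX hx)
      have h3 : 0 < deg E x := by omega
      obtain ⟨B, hB⟩ := card_pos.mp h3
      rw [mem_filter] at hB
      rw [mem_sup]
      exact ⟨B, hB.1, hB.2⟩
    have htau : t + 1 ≤ tau E A := by
      by_contra hcon
      push Not at hcon
      obtain ⟨S, hS, hSc, hAS⟩ := cov_tau hAE
      exact hCF A hA S hS (by omega) hAS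
    -- low degree points
    set Lo := A.filter (fun x => 2 * deg F x ≤ t + 1) with hLo
    set A' := A.filter (fun x => ¬ 2 * deg F x ≤ t + 1) with hA'
    have hsplit : ∑ x ∈ Lo, 1 / (deg F x : ℝ) + ∑ x ∈ A', 1 / (deg F x : ℝ) =
        ∑ x ∈ A, 1 / (deg F x : ℝ) := sum_filter_add_sum_filter_not _ _ _
    set σ := ∑ x ∈ Lo, 1 / (deg F x : ℝ) with hσ
    have hσ0 : 0 ≤ σ := sum_nonneg fun x _ => by positivity
    have hLocard : (Lo.card : ℝ) ≤ ((t : ℝ) + 1) / 2 * σ := by
      rw [hσ, mul_sum, card_eq_sum_ones, Nat.cast_sum]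
      apply sum_le_sum
      intro x hx
      rw [hLo, mem_filter] at hx
      have h1 := hdpos x (hAX hx.1)
      have h2 : (2 : ℝ) * deg F x ≤ t + 1 := by exact_mod_cast hx.2
      rw [mul_one_div, le_div_iff₀ h1]
      push_cast
      linarith
    have hA'A : A' ⊆ A := filter_subset _ _
    have hA'E : A' ⊆ E.sup id := hA'A.trans hAE
    have htau' : tau E A ≤ Lo.card + tau E A' := by
      have c1 := Cov.biUnion (E := E) Lo (fun x => {x}) (fun _ => 1) (fun x hx =>
        cov_singleton (hAE ((filter_subset _ _) hx)))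
      have c2 := cov_tau hA'E
      refine tau_le (((c1.union c2).mono ?_).subset ?_)
      · rw [card_eq_sum_ones]
      · intro x hx
        rw [mem_union, mem_biUnion]
        by_cases h : 2 * deg F x ≤ t + 1
        · exact Or.inl ⟨x, mem_filter.mpr ⟨hx, h⟩, mem_singleton_self x⟩
        · exact Or.inr (mem_filter.mpr ⟨hx, h⟩)
    have hkey := key E A'.card A' rfl hA'E
    have hwt : (wt E A' : ℝ) ≤ (F.card : ℝ) - 1 := by
      have h1 : wt E A' ≤ E.card := card_le_card (filter_subset _ _)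
      rw [hE, card_erase_of_mem hA] at h1
      have h2 : ((F.card - 1 : ℕ) : ℝ) = (F.card : ℝ) - 1 := by
        rw [Nat.cast_sub (by omega)]; simp
      rw [← h2]
      exact_mod_cast h1
    have htR : (1 : ℝ) ≤ (t : ℝ) := by exact_mod_cast ht
    have hsumE : ∑ x ∈ A', 1 / (deg E x : ℝ) ≤ (1 + 2 / (t : ℝ)) * ∑ x ∈ A', 1 / (deg F x : ℝ) := by
      rw [mul_sum]
      apply sum_le_sum
      intro x hx
      rw [hA', mem_filter] at hx
      have h1 := hdE x hx.1
      have h2 : t ≤ 2 * deg E x := by omega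
      have h3 : (t : ℝ) ≤ 2 * (deg E x : ℝ) := by exact_mod_cast h2
      have h4 : (deg F x : ℝ) = (deg E x : ℝ) + 1 := by rw [← h1]; push_cast; ring
      have h5 : (0 : ℝ) < (deg E x : ℝ) := by linarith
      rw [h4, mul_one_div, div_le_div_iff₀ h5 (by linarith)]
      have h6 : (1 : ℝ) ≤ 2 / (t : ℝ) * (deg E x : ℝ) := by
        rw [div_mul_eq_mul_div, le_div_iff₀ (by linarith)]
        linarith
      nlinarith
    set u := ∑ x ∈ A', 1 / (deg F x : ℝ) with hu
    have hu0 : 0 ≤ u := sum_nonneg fun x _ => by positivity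
    have hcardR : (n : ℝ) + 1 ≤ F.card := by exact_mod_cast hcard
    have hn0 : (0 : ℝ) ≤ n := Nat.cast_nonneg _
    -- combine
    have hσu : σ + u ≤ (n : ℝ) / F.card := by rw [hsplit]; exact hAle
    have hσu' : (σ + u) * F.card ≤ n := by rwa [le_div_iff₀ hFposR] at hσu
    have hσlt : σ < 1 := by
      by_contra hcon
      push Not at hcon
      nlinarith
    have hbig : ((F.card : ℝ) - 1) * u ≤ n * (1 - σ) := by nlinarith
    have hτ1 : ((t : ℝ) + 1) * (1 - σ / 2) ≤ (tau E A' : ℕ) := by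
      have h1 : ((t : ℝ) + 1) ≤ (Lo.card : ℝ) + (tau E A' : ℕ) := by
        exact_mod_cast htau.trans htau'
      linarith
    have hτ2 : (((t : ℝ) + 1) * (1 - σ / 2)) ^ 2 ≤ ((tau E A' : ℕ) : ℝ) ^ 2 :=
      pow_le_pow_left₀ (mul_nonneg (by linarith) (by linarith)) hτ1 2
    have hc : (0 : ℝ) ≤ 1 + 2 / (t : ℝ) := by positivity
    have hτ3 : ((tau E A' : ℕ) : ℝ) ^ 2 ≤ (1 + 2 / (t : ℝ)) * (n * (1 - σ)) := by
      calc ((tau E A' : ℕ) : ℝ) ^ 2 ≤ (wt E A' : ℝ) * ∑ x ∈ A', 1 / (deg E x : ℝ) := hkey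
        _ ≤ ((F.card : ℝ) - 1) * ((1 + 2 / (t : ℝ)) * u) := by
            apply mul_le_mul hwt hsumE
            · exact sum_nonneg fun x _ => by positivity
            · linarith
        _ = (1 + 2 / (t : ℝ)) * (((F.card : ℝ) - 1) * u) := by ring
        _ ≤ (1 + 2 / (t : ℝ)) * (n * (1 - σ)) := mul_le_mul_of_nonneg_left hbig hc
    have hfin : ((t : ℝ) + 1) ^ 2 * (1 - σ) ≤ (1 + 2 / (t : ℝ)) * n * (1 - σ) := by
      have : ((t : ℝ) + 1) ^ 2 * (1 - σ) ≤ (((t : ℝ) + 1) * (1 - σ / 2)) ^ 2 := by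
        have : (((t : ℝ) + 1) * (1 - σ / 2)) ^ 2 =
            ((t : ℝ) + 1) ^ 2 * (1 - σ) + ((t : ℝ) + 1) ^ 2 * (σ ^ 2 / 4) := by ring
        rw [this]
        have : 0 ≤ ((t : ℝ) + 1) ^ 2 * (σ ^ 2 / 4) := by positivity
        linarith
      linarith
    have hfin2 : ((t : ℝ) + 1) ^ 2 ≤ (1 + 2 / (t : ℝ)) * n :=
      le_of_mul_le_mul_right hfin (by linarith)
    have ht0 : (0 : ℝ) < t := by linarith
    calc (t : ℝ) * (t + 1) ^ 2 ≤ t * ((1 + 2 / (t : ℝ)) * n) :=
          mul_le_mul_of_nonneg_left hfin2 ht0.le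
      _ = n * (t + 2) := by field_simp

/-- **Lower bound**, integer form. -/
theorem sq_lt (t n : ℕ) (ht : 1 ≤ t) (F : Finset (Finset (Fin n))) (hcard : n < F.card)
    (hCF : CoverFree t F) : t ^ 2 < n := by
  have h := lower t ht n (Finset.univ : Finset (Fin n)) (by simp) F (fun A _ => subset_univ A)
    hcard hCF
  by_contra hcon
  push Not at hcon
  have h1 : (n : ℝ) ≤ (t : ℝ) ^ 2 := by exact_mod_cast hcon
  have h2 : (n : ℝ) * (t + 2) ≤ (t : ℝ) ^ 2 * (t + 2) :=
    mul_le_mul_of_nonneg_right h1 (by positivity)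
  have h3 : (1 : ℝ) ≤ (t : ℝ) := by exact_mod_cast ht
  nlinarith

end Pool.Agent.Helper62_CoverFree
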