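import Mathlib
import Pool.Agent.Helper62_CoverFree.Lower

/-!
Upper bound from affine planes, and the assembly of the limit.
-/

set_option autoImplicit false

namespace Pool.Agent.Helper62_CoverFree

open Finset Filter

lemma coverFree_of_inter {β : Type*} [DecidableEq β] (t : ℕ) (F : Finset (Finset β))
    (h1 : ∀ A ∈ F, t < A.card) (h2 : ∀ A ∈ F, ∀ B ∈ F, A ≠ B → (A ∩ B).card ≤ 1) :
    CoverFree t F := by
  intro A hA S hS hSt hAS
  have h3 : A ⊆ S.biUnion fun B => A ∩ B := by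
    intro x hx
    have := hAS hx
    rw [Finset.mem_sup] at this
    obtain ⟨B, hB, hxB⟩ := this
    exact mem_biUnion.mpr ⟨B, hB, mem_inter.mpr ⟨hx, hxB⟩⟩
  have h4 := card_le_card h3
  have h5 : (S.biUnion fun B => A ∩ B).card ≤ S.card * 1 := by
    apply card_biUnion_le_card_mul
    intro B hB
    have := hS hB
    rw [mem_erase] at this
    exact h2 A hA B this.2 (Ne.symm this.1)
  have h6 := h1 A hA
  omega

section plane

variable (K : Type) [Field K] [Fintype K] [DecidableEq K]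

/-- Lines of the affine plane over `K`. -/
def line : (K × K) ⊕ K → Finset (K × K)
  | Sum.inl (m, b) => univ.filter fun z => z.2 = m * z.1 + b
  | Sum.inr c => univ.filter fun z => z.1 = c

lemma card_line (l : (K × K) ⊕ K) : (line K l).card = Fintype.card K := by
  rcases l with ⟨m, b⟩ | c
  · rw [← card_univ]
    symm
    apply card_bij (fun x _ => (x, m * x + b))
    · intro x _
      simp [line]
    · intro x _ y _ h
      exact (Prod.ext_iff.mp h).1
    · rintro ⟨x, y⟩ h
      simp only [line, mem_filter, mem_univ, true_and] at h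
      exact ⟨x, mem_univ _, by rw [h]⟩
  · rw [← card_univ]
    symm
    apply card_bij (fun y _ => (c, y))
    · intro x _
      simp [line]
    · intro x _ y _ h
      exact (Prod.ext_iff.mp h).2
    · rintro ⟨x, y⟩ h
      simp only [line, mem_filter, mem_univ, true_and] at h
      exact ⟨y, mem_univ _, by rw [h]⟩

lemma inter_line (l l' : (K × K) ⊕ K) (h : l ≠ l') : (line K l ∩ line K l').card ≤ 1 := by
  rw [card_le_one]
  rintro ⟨x, y⟩ hz ⟨x', y'⟩ hz'
  rw [mem_inter] at hz hz'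
  rcases l with ⟨m, b⟩ | c <;> rcases l' with ⟨m', b'⟩ | c' <;>
    simp only [line, mem_filter, mem_univ, true_and] at hz hz'
  · obtain ⟨h1, h2⟩ := hz
    obtain ⟨h3, h4⟩ := hz'
    by_cases hm : m = m'
    · subst hm
      have : b = b' := by
        have := h1.symm.trans h2
        exact add_left_cancel this
      exact absurd (by rw [this]) h
    · have hx : (m - m') * (x - x') = 0 := by
        linear_combination (-1 : K) * h1 + h2 + h3 - h4
      rcases mul_eq_zero.mp hx with h5 | h5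
      · exact absurd (sub_eq_zero.mp h5) hm
      · have h6 := sub_eq_zero.mp h5
        rw [Prod.ext_iff]
        refine ⟨h6, ?_⟩
        show y = y'
        rw [h1, h3, h6]
  · obtain ⟨h1, h2⟩ := hz
    obtain ⟨h3, h4⟩ := hz'
    rw [Prod.ext_iff]
    refine ⟨h2.trans h4.symm, ?_⟩
    show y = y'
    rw [h1, h3, h2, h4]
  · obtain ⟨h1, h2⟩ := hz
    obtain ⟨h3, h4⟩ := hz'
    rw [Prod.ext_iff]
    refine ⟨h1.trans h3.symm, ?_⟩
    show y = y'
    rw [h2, h4, h1, h3]
  · exact absurd (by rw [← hz.1, ← hz.2]) h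

end plane

/-- Affine planes give cover-free families with more members than points. -/
theorem exists_family (q : ℕ) (hq : IsPrimePow q) (t : ℕ) (ht : t < q) :
    ∃ F : Finset (Finset (Fin (q ^ 2))), q ^ 2 < F.card ∧ CoverFree t F := by
  classical
  obtain ⟨p, k, hp, hk, rfl⟩ := hq
  have hp' : Nat.Prime p := Nat.prime_iff.mpr hp
  have : Fact p.Prime := ⟨hp'⟩
  let K := GaloisField p k
  let _ : Fintype K := Fintype.ofFinite K
  have hK : Fintype.card K = p ^ k := by
    rw [← Nat.card_eq_fintype_card]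
    exact GaloisField.card p k hk.ne'
  have hcardP : Fintype.card (K × K) = (p ^ k) ^ 2 := by
    rw [Fintype.card_prod, hK, sq]
  let e : K × K ≃ Fin ((p ^ k) ^ 2) := Fintype.equivFinOfCardEq hcardP
  have hq2 : 2 ≤ p ^ k := by
    calc 2 ≤ p := hp'.two_le
      _ = p ^ 1 := (pow_one p).symm
      _ ≤ p ^ k := Nat.pow_le_pow_right hp'.pos hk
  let L : (K × K) ⊕ K → Finset (Fin ((p ^ k) ^ 2)) := fun l => (line K l).map e.toEmbedding
  have hLc : ∀ l, (L l).card = p ^ k := fun l => by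
    show ((line K l).map e.toEmbedding).card = _
    rw [card_map, card_line, hK]
  have hLi : ∀ l l', l ≠ l' → (L l ∩ L l').card ≤ 1 := fun l l' h => by
    show ((line K l).map e.toEmbedding ∩ (line K l').map e.toEmbedding).card ≤ 1
    rw [← map_inter, card_map]
    exact inter_line K l l' h
  have hinj : Function.Injective L := by
    intro l l' h
    by_contra hne
    have h1 := hLi l l' hne
    rw [← h, inter_self, hLc] at h1
    omega
  refine ⟨univ.image L, ?_, ?_⟩
  · rw [card_image_of_injective _ hinj, card_univ, Fintype.card_sum, hcardP, hK]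
    omega
  · apply coverFree_of_inter
    · intro A hA
      rw [mem_image] at hA
      obtain ⟨l, _, rfl⟩ := hA
      rw [hLc]
      exact ht
    · intro A hA B hB hne
      rw [mem_image] at hA hB
      obtain ⟨l, _, rfl⟩ := hA
      obtain ⟨l', _, rfl⟩ := hB
      exact hLi l l' (fun h => hne (by rw [h]))

/-- The minimum ground-set size. -/
noncomputable def Nstar (t : ℕ) : ℕ :=
  sInf {n : ℕ | ∃ F : Finset (Finset (Fin n)), n < F.card ∧
            ∀ A ∈ F, ∀ S ⊆ F.erase A, S.card ≤ t → ¬ A ⊆ S.sup id}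

lemma Nstar_le {q t : ℕ} (hq : IsPrimePow q) (ht : t < q) : Nstar t ≤ q ^ 2 :=
  Nat.sInf_le (exists_family q hq t ht)

/-- `N*(t) > t²` for every `t ≥ 1`. -/
theorem sq_lt_Nstar (t : ℕ) (ht : 1 ≤ t) : t ^ 2 < Nstar t := by
  have hne : {n : ℕ | ∃ F : Finset (Finset (Fin n)), n < F.card ∧
            ∀ A ∈ F, ∀ S ⊆ F.erase A, S.card ≤ t → ¬ A ⊆ S.sup id}.Nonempty := by
    obtain ⟨p, hp1, hp⟩ := Nat.exists_infinite_primes (t + 1)
    exact ⟨p ^ 2, exists_family p hp.isPrimePow t (by omega)⟩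
  obtain ⟨F, hF, hCF⟩ := Nat.sInf_mem hne
  exact sq_lt t _ ht F hF hCF

/-- The limit, given prime powers in short intervals. -/
theorem tendsto_of_primes
    (h : ∀ ε : ℝ, 0 < ε → ∀ᶠ t : ℕ in atTop, ∃ q : ℕ, IsPrimePow q ∧ t < q ∧
      (q : ℝ) ≤ (1 + ε) * t) :
    Tendsto (fun t : ℕ => ((Nstar t : ℕ) : ℝ) / ((t : ℝ) ^ 2)) atTop (nhds 1) := by
  rw [Metric.tendsto_nhds]
  intro δ hδ
  -- choose ε with (1+ε)² < 1 + δ
  obtain ⟨ε, hε, hε2⟩ : ∃ ε : ℝ, 0 < ε ∧ (1 + ε) ^ 2 < 1 + δ := by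
    refine ⟨min 1 (δ / 4), lt_min one_pos (by linarith), ?_⟩
    have h1 : min 1 (δ / 4) ≤ 1 := min_le_left _ _
    have h2 : min 1 (δ / 4) ≤ δ / 4 := min_le_right _ _
    have h3 : 0 < min 1 (δ / 4) := lt_min one_pos (by linarith)
    nlinarith
  filter_upwards [h ε hε, eventually_ge_atTop 1] with t hq ht1
  obtain ⟨q, hqp, htq, hqle⟩ := hq
  have htpos : (0 : ℝ) < (t : ℝ) := by exact_mod_cast ht1
  have ht2 : (0 : ℝ) < (t : ℝ) ^ 2 := by positivity
  have hlow : (t : ℝ) ^ 2 < (Nstar t : ℕ) := by exact_mod_cast sq_lt_Nstar t ht1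
  have hup : ((Nstar t : ℕ) : ℝ) ≤ (q : ℝ) ^ 2 := by exact_mod_cast Nstar_le hqp htq
  have hup2 : (q : ℝ) ^ 2 ≤ ((1 + ε) * t) ^ 2 := pow_le_pow_left₀ (Nat.cast_nonneg _) hqle 2
  rw [Real.dist_eq, abs_lt]
  constructor
  · have : 1 < ((Nstar t : ℕ) : ℝ) / (t : ℝ) ^ 2 := by rw [lt_div_iff₀ ht2]; linarith
    linarith
  · have : ((Nstar t : ℕ) : ℝ) / (t : ℝ) ^ 2 ≤ (1 + ε) ^ 2 := by
      rw [div_le_iff₀ ht2]
      calc ((Nstar t : ℕ) : ℝ) ≤ ((1 + ε) * t) ^ 2 := hup.trans hup2
        _ = (1 + ε) ^ 2 * (t : ℝ) ^ 2 := by ring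
    linarith

end Pool.Agent.Helper62_CoverFree
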